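import Pool.Agent.Helper15.PotDense

/-!
# Potential density passes to dominated schemes
-/

set_option autoImplicit false

namespace Pool.Agent.Helper65.CB

open AlgebraicGeometry CategoryTheory Pool.Agent.Helper15

universe u

/-- `X` is dominated by `Y` over `K`: some nonempty open subscheme of `Y` has a dominant morphism
over `K` to `X`. -/
def DominatedOver (K : Type u) [Field K] (X Y : Scheme.{u})
    (s : X ⟶ Spec (CommRingCat.of K)) (t : Y ⟶ Spec (CommRingCat.of K)) : Prop :=
  ∃ (W : Scheme.{u}) (f : W ⟶ X) (j : W ⟶ Y),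
    IsDominant f ∧ IsOpenImmersion j ∧ Nonempty W ∧ f ≫ s = j ≫ t

theorem DominatedOver.of_birational {K : Type u} [Field K] {X Y : Scheme.{u}}
    {s : X ⟶ Spec (CommRingCat.of K)} {t : Y ⟶ Spec (CommRingCat.of K)}
    [IrreducibleSpace X] (h : BirationalOver K X Y s t) : DominatedOver K X Y s t := by
  obtain ⟨W, i, j, hi, hj, hW, hij⟩ := h
  refine ⟨W, i, j, ⟨?_⟩, hj, hW, hij⟩
  have ho : IsOpen (Set.range i) := i.isOpenEmbedding.isOpen_range
  exact ho.dense ⟨i hW.some, hW.some, rfl⟩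

/-- potential density passes from `Y` to every scheme dominated by `Y` -/
theorem PotentiallyDense.of_dominated {K : Type u} [Field K] {X Y : Scheme.{u}}
    {s : X ⟶ Spec (CommRingCat.of K)} {t : Y ⟶ Spec (CommRingCat.of K)}
    (hd : DominatedOver K X Y s t) (h : PotentiallyDense K Y t) : PotentiallyDense K X s := by
  obtain ⟨W, f, j, hf, hj, hW, hfj⟩ := hd
  obtain ⟨L, iL, aL, hfin, hdense⟩ := h
  refine ⟨L, iL, aL, hfin, ?_⟩
  have hD : Dense (ratPts K L W (j ≫ t)) := dense_ratPts_of_openImmersion K L W Y j t hdense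
  have hsub : f '' (ratPts K L W (j ≫ t)) ⊆ ratPts K L X s := by
    rintro _ ⟨z, ⟨p, hp, ⟨y, hy⟩⟩, rfl⟩
    refine ⟨p ≫ f, ?_, y, ?_⟩
    · rw [Category.assoc, hfj, hp]
    · rw [Scheme.Hom.comp_apply, hy]
  have hr : DenseRange f := hf.denseRange
  exact (hr.dense_image f.continuous hD).mono hsub

end Pool.Agent.Helper65.CB
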