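import Pool.Agent.Helper65.CB.HSF

/-!
# CB, theorem T-E: definitions
-/

set_option autoImplicit false

namespace Pool.Agent.Helper65.CB

open NumberField Polynomial Pool.Agent.Helper4.CB Pool.Agent.Helper16.CB

/-- the symbol `(a, b)` is unramified at the prime element `P`: the tame symbol of
`a = P ^ e * a1` and `b = P ^ f * b1` is a square in the residue field of `P` -/
def LCU {R : Type*} [CommRing R] (P a b : R) : Prop :=
  ∃ (e f : ℕ) (a1 b1 g h : R), a = P ^ e * a1 ∧ b = P ^ f * b1 ∧ ¬ P ∣ a1 ∧ ¬ P ∣ b1 ∧ ¬ P ∣ g ∧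
    P ∣ g ^ 2 * ((-1) ^ (e * f) * (a1 ^ f * b1 ^ e)) - h ^ 2

/-- **STEP** with unramified factors: one more variable.  `P` irreducible of degree more than `dm`
are allowed if the symbol `(a, b)` is unramified at `P`. -/
def StepLC (K : Type) [Field K] [NumberField K] (dm : ℕ) : Prop :=
  ∀ D J0 : ℕ, ∃ J : ℕ, J0 ≤ J ∧ ∀ a b : K[X], a ≠ 0 → b ≠ 0 → (a * b).natDegree ≤ D →
    (∀ P : K[X], Irreducible P → P ∣ a * b → P.natDegree ≤ dm ∨ LC (Ideal.span {P}) a b) →
    HS K J0 a.leadingCoeff b.leadingCoeff →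
    ∀ Z : Finset K, ∃ s : K, s ∉ Z ∧ HS K J (a.eval s) (b.eval s)

/-- **STEPC**: the step from the value at a point `c` -/
def StepC (K : Type) [Field K] [NumberField K] (dm : ℕ) : Prop :=
  ∀ D J0 : ℕ, ∃ J : ℕ, J0 ≤ J ∧ ∀ a b : K[X], a ≠ 0 → b ≠ 0 → (a * b).natDegree ≤ D →
    (∀ P : K[X], Irreducible P → P ∣ a * b → P.natDegree ≤ dm ∨ LC (Ideal.span {P}) a b) →
    ∀ c : K, HS K J0 (a.eval c) (b.eval c) →
    ∀ Z : Finset K, ∃ s : K, s ∉ Z ∧ HS K J (a.eval s) (b.eval s)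

/-- the points of `R` over `M` at which the pair `(a, b)` is harmless are dense -/
def HDM (K M : Type) [Field K] [Field M] [NumberField M] [Algebra K M] (R : Type) [CommRing R]
    [Algebra K R] (J : ℕ) (a b : R) : Prop :=
  ∀ f : R, f ≠ 0 → ∃ φ : R →ₐ[K] M, φ f ≠ 0 ∧ HS M J (φ a) (φ b)

/-- the restriction of a polynomial to the line through `y` in the direction `j` -/
noncomputable def line {K : Type} [Field K] {σ : Type} [DecidableEq σ] (y : σ → K) (j : σ) :
    MvPolynomial σ K →ₐ[K] K[X] :=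
  MvPolynomial.aeval (Function.update (fun i => C (y i)) j X)

end Pool.Agent.Helper65.CB
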