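import Pool.Agent.Helper65.CB.TDefs
import Pool.Agent.Helper38.CB.SqVal

/-!
# CB, tower form: facts on `LC` and `HS`
-/

set_option autoImplicit false

namespace Pool.Agent.Helper65.CB

open NumberField Polynomial Pool.Agent.Helper4.CB Pool.Agent.Helper16.CB
open Pool.Agent.Helper3.CB (AlgStmt)

/-- **TWIST.** `(odd, even)`: `h * σ`; `(odd, odd)`: `h * ρ * σ`. -/
theorem lc_twist {R : Type*} [CommRing R] [IsDedekindDomain R] {q : Ideal R} (hq : q.IsPrime)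
    (hq0 : q ≠ ⊥) {a b a' b' ρ σ : R} (hρ : ρ ∉ q) (hσ : σ ∉ q) (ha : a' - ρ ^ 2 ∈ q)
    (hb : b' - σ ^ 2 ∈ q) (h : LC q a b) : LC q (a * a') (b * b') := by
  obtain ⟨α, β, hα, hβ, h⟩ := h
  have ha' : a' ∉ q := fun h1 => hρ (hq.mem_of_pow_mem 2 (by
    have := q.sub_mem h1 ha
    simpa using this))
  have hb' : b' ∉ q := fun h1 => hσ (hq.mem_of_pow_mem 2 (by
    have := q.sub_mem h1 hb
    simpa using this))
  have hα' : Val q (a * a') α := by
    have := hα.mul hq hq0 (val_zero_iff.2 ha')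
    simpa using this
  have hβ' : Val q (b * b') β := by
    have := hβ.mul hq hq0 (val_zero_iff.2 hb')
    simpa using this
  refine ⟨α, β, hα', hβ', ?_⟩
  rcases h with h | ⟨h1, h2, g, hg⟩ | ⟨h1, h2, g, hg⟩ | ⟨h1, h2, g, hg⟩
  · exact Or.inl h
  · refine Or.inr (Or.inl ⟨h1, h2, g * σ, ?_⟩)
    have hid : b * b' - (g * σ) ^ 2 = b * (b' - σ ^ 2) + σ ^ 2 * (b - g ^ 2) := by ring
    rw [hid]
    refine Ideal.add_mem _ ?_ (Ideal.mul_mem_left _ _ hg)
    rw [pow_succ]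
    exact Ideal.mul_mem_mul hβ.1 hb
  · refine Or.inr (Or.inr (Or.inl ⟨h1, h2, g * ρ, ?_⟩))
    have hid : a * a' - (g * ρ) ^ 2 = a * (a' - ρ ^ 2) + ρ ^ 2 * (a - g ^ 2) := by ring
    rw [hid]
    refine Ideal.add_mem _ ?_ (Ideal.mul_mem_left _ _ hg)
    rw [pow_succ]
    exact Ideal.mul_mem_mul hα.1 ha
  · refine Or.inr (Or.inr (Or.inr ⟨h1, h2, g * (ρ * σ), ?_⟩))
    have hid : -(a * a' * (b * b')) - (g * (ρ * σ)) ^ 2 =
        (a * b) * (-(a' * (b' - σ ^ 2)) - σ ^ 2 * (a' - ρ ^ 2)) +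
          (ρ * σ) ^ 2 * (-(a * b) - g ^ 2) := by ring
    rw [hid]
    refine Ideal.add_mem _ ?_ (Ideal.mul_mem_left _ _ hg)
    rw [pow_succ]
    refine Ideal.mul_mem_mul ?_ ?_
    · rw [pow_add]
      exact Ideal.mul_mem_mul hα.1 hβ.1
    · refine Ideal.sub_mem _ (neg_mem (Ideal.mul_mem_left _ _ hb)) (Ideal.mul_mem_left _ _ ha)

/-- square roots modulo a prime lift to elements of even valuation -/
theorem exists_sq_of_val {R : Type*} [CommRing R] [IsDedekindDomain R] {p : Ideal R}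
    (hp : p.IsPrime) (hp0 : p ≠ ⊥) (hsq : ∀ y : R, ∃ γ : R, y - γ ^ 2 ∈ p) {x : R} {m : ℕ}
    (hx : Val p x (2 * m)) : ∃ h : R, x - h ^ 2 ∈ p ^ (2 * m + 1) := by
  have hlt : ¬ p ≤ p ^ 2 := by
    intro h
    have h1 : p ^ 2 < p ^ 1 := Ideal.pow_right_strictAnti p hp0 hp.ne_top (by norm_num)
    rw [pow_one] at h1
    exact absurd h (not_le_of_gt h1)
  obtain ⟨π, hπ, hπ2⟩ := SetLike.not_le_iff_exists.1 hlt
  obtain ⟨s, t, hs, ht, hst⟩ := Pool.Agent.Helper38.CB.exists_quot hp hp0 hπ hπ2 hx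
  have hmax : p.IsMaximal := hp.isMaximal hp0
  obtain ⟨s', hs'⟩ : ∃ s' : R, 1 - s * s' ∈ p := by
    obtain ⟨y, z, hz, hyz⟩ := hmax.exists_inv hs
    refine ⟨y, ?_⟩
    have : 1 - s * y = z := by
      rw [← hyz]
      ring
    rw [this]
    exact hz
  obtain ⟨γ, hγ⟩ := hsq (t * s')
  refine ⟨π ^ m * γ, ?_⟩
  have hid : x - (π ^ m * γ) ^ 2 = x * (1 - s * s') + π ^ (2 * m) * (t * s' - γ ^ 2) := by
    linear_combination s' * hst
  rw [hid, pow_succ]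
  exact Ideal.add_mem _ (Ideal.mul_mem_mul hx.1 hs')
    (Ideal.mul_mem_mul (Ideal.pow_mem_pow hπ _) hγ)

/-- **LC2.** at the primes above two the local condition always holds -/
theorem lc_two {K : Type} [Field K] [NumberField K] {p : Ideal (𝓞 K)} (hp : p.IsPrime)
    (hp0 : p ≠ ⊥) (h2 : (2 : 𝓞 K) ∈ p) {a b : 𝓞 K} (ha : a ≠ 0) (hb : b ≠ 0) : LC p a b := by
  have hmax : p.IsMaximal := hp.isMaximal hp0
  have hsq : ∀ y : 𝓞 K, ∃ γ : 𝓞 K, y - γ ^ 2 ∈ p := by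
    intro y
    let _ : Field (𝓞 K ⧸ p) := Ideal.Quotient.field p
    have : Finite (𝓞 K ⧸ p) := Ideal.finiteQuotientOfFreeOfNeBot p hp0
    let _ : Fintype (𝓞 K ⧸ p) := Fintype.ofFinite _
    have h3 : ((2 : ℕ) : 𝓞 K ⧸ p) = 0 := by
      have h4 : (Ideal.Quotient.mk p) (2 : 𝓞 K) = 0 := Ideal.Quotient.eq_zero_iff_mem.2 h2
      rw [← map_natCast (Ideal.Quotient.mk p) 2]
      simpa using h4
    have h4 : ringChar (𝓞 K ⧸ p) = 2 := by
      have h5 : ringChar (𝓞 K ⧸ p) ∣ 2 := (ringChar.spec (𝓞 K ⧸ p) 2).1 h3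
      rcases (Nat.dvd_prime Nat.prime_two).1 h5 with h6 | h6
      · exfalso
        have h7 : ((1 : ℕ) : 𝓞 K ⧸ p) = 0 := by
          rw [← h6]
          exact ringChar.Nat.cast_ringChar
        simp at h7
      · exact h6
    obtain ⟨g, hg⟩ := FiniteField.isSquare_of_char_two h4 (Ideal.Quotient.mk p y)
    obtain ⟨γ, rfl⟩ := Ideal.Quotient.mk_surjective g
    refine ⟨γ, ?_⟩
    rw [← Ideal.Quotient.eq, hg, pow_two, map_mul]
  obtain ⟨α, hα⟩ := exists_val hp ha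
  obtain ⟨β, hβ⟩ := exists_val hp hb
  refine ⟨α, β, hα, hβ, ?_⟩
  by_cases h1 : Even α <;> by_cases h3 : Even β
  · exact Or.inl ⟨h1, h3⟩
  · obtain ⟨m, hm⟩ := h1.two_dvd
    refine Or.inr (Or.inr (Or.inl ⟨h1, h3, ?_⟩))
    subst hm
    exact exists_sq_of_val hp hp0 hsq hα
  · obtain ⟨m, hm⟩ := h3.two_dvd
    refine Or.inr (Or.inl ⟨h1, h3, ?_⟩)
    subst hm
    exact exists_sq_of_val hp hp0 hsq hβ
  · have h5 : Even (α + β) := by
      rw [Nat.even_add]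
      exact iff_of_false h1 h3
    obtain ⟨m, hm⟩ := h5.two_dvd
    refine Or.inr (Or.inr (Or.inr ⟨h1, h3, ?_⟩))
    rw [hm]
    apply exists_sq_of_val hp hp0 hsq
    rw [← hm]
    exact (hα.mul hp hp0 hβ).neg

theorem harm_mono {K : Type} [Field K] [NumberField K] {J J' : ℕ} (h : J ≤ J') {a b : 𝓞 K}
    {p : Ideal (𝓞 K)} (hx : Harm J a b p) : Harm J' a b p := by
  rcases hx with ⟨h1, h2⟩ | hx
  · exact Or.inl ⟨h1, fun h3 => h2 (h3.of_dvd (pow_dvd_pow 2 h))⟩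
  · exact Or.inr hx

theorem HS.mono {K : Type} [Field K] [NumberField K] {J J' : ℕ} (h : J ≤ J') {x y : K}
    (hx : HS K J x y) : HS K J' x y := by
  obtain ⟨a, b, c, d, ha, hb, hc, hd, hac, hbd, hp⟩ := hx
  exact ⟨a, b, c, d, ha, hb, hc, hd, hac, hbd, fun p hp1 hp2 hp3 =>
    harm_mono h (hp p hp1 hp2 hp3)⟩

theorem HS.sq {K : Type} [Field K] [NumberField K] {J : ℕ} {x y c d : K} (hc : c ≠ 0) (hd : d ≠ 0)
    (hx : HS K J x y) : HS K J (c ^ 2 * x) (d ^ 2 * y) := by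
  obtain ⟨a, b, c', d', ha, hb, hc', hd', hac, hbd, hp⟩ := hx
  refine ⟨a, b, c' / c, d' / d, ha, hb, div_ne_zero hc' hc, div_ne_zero hd' hd, ?_, ?_, hp⟩
  · rw [hac]
    field_simp
  · rw [hbd]
    field_simp

theorem HS.ne_zero {K : Type} [Field K] [NumberField K] {J : ℕ} {x y : K} (hx : HS K J x y) :
    x ≠ 0 ∧ y ≠ 0 := by
  obtain ⟨a, b, c, d, ha, hb, hc, hd, hac, hbd, -⟩ := hx
  constructor
  · rintro rfl
    apply ha
    rw [mul_zero] at hac
    exact_mod_cast hac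
  · rintro rfl
    apply hb
    rw [mul_zero] at hbd
    exact_mod_cast hbd

/-- every element of `K` is integral up to a square -/
theorem exists_int_sq {K : Type} [Field K] [NumberField K] {x : K} (hx : x ≠ 0) :
    ∃ (a : 𝓞 K) (c : K), a ≠ 0 ∧ c ≠ 0 ∧ (a : K) = c ^ 2 * x := by
  obtain ⟨a, s, hs, rfl⟩ := IsFractionRing.div_surjective (A := 𝓞 K) x
  have hs0 : s ≠ 0 := nonZeroDivisors.ne_zero hs
  have hsK : (algebraMap (𝓞 K) K s) ≠ 0 := by
    rw [Ne, FaithfulSMul.algebraMap_eq_zero_iff]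
    exact hs0
  have ha0 : a ≠ 0 := by
    rintro rfl
    simp at hx
  refine ⟨a * s, algebraMap (𝓞 K) K s, mul_ne_zero ha0 hs0, hsK, ?_⟩
  change algebraMap (𝓞 K) K (a * s) = _
  rw [map_mul]
  field_simp

/-- the norm of a prime which does not contain two is odd -/
theorem odd_absNorm {K : Type} [Field K] [NumberField K] {p : Ideal (𝓞 K)} (hp : p.IsPrime)
    (hp0 : p ≠ ⊥) (h2 : (2 : 𝓞 K) ∉ p) : Odd (Ideal.absNorm p) :=
  Pool.Agent.Helper3.CB.odd_absNorm hp hp0 h2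

/-- **START.** -/
theorem HS.exists {K : Type} [Field K] [NumberField K] {x y : K} (hx : x ≠ 0) (hy : y ≠ 0) :
    ∃ J, HS K J x y := by
  obtain ⟨a, c, ha, hc, hac⟩ := exists_int_sq hx
  obtain ⟨b, d, hb, hd, hbd⟩ := exists_int_sq hy
  have hab : a * b ≠ 0 := mul_ne_zero ha hb
  -- every prime containing `a * b` has norm at most `N (a * b)`
  set B := Ideal.absNorm (Ideal.span {a * b}) with hB
  have hB0 : B ≠ 0 := by
    rw [hB, Ne, Ideal.absNorm_eq_zero_iff, Ideal.span_singleton_eq_bot]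
    exact hab
  refine ⟨B + 1, a, b, c, d, ha, hb, hc, hd, hac, hbd, ?_⟩
  intro p hp hp0 hmem
  by_cases h2 : (2 : 𝓞 K) ∈ p
  · exact Or.inr (lc_two hp hp0 h2 ha hb)
  · left
    refine ⟨odd_absNorm hp hp0 h2, ?_⟩
    intro h3
    have h4 : Ideal.absNorm p ∣ B := by
      rw [hB]
      apply Ideal.absNorm_dvd_absNorm_of_le
      rw [Ideal.span_singleton_le_iff_mem]
      exact hmem
    have h5 : Ideal.absNorm p ≤ B := Nat.le_of_dvd (Nat.pos_of_ne_zero hB0) h4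
    have h6 : 1 < Ideal.absNorm p := by
      have h7 : Ideal.absNorm p ≠ 1 := by
        rw [Ne, Ideal.absNorm_eq_one_iff]
        exact hp.ne_top
      have h8 : Ideal.absNorm p ≠ 0 := by
        rw [Ne, Ideal.absNorm_eq_zero_iff]
        exact hp0
      omega
    have h7 : B < 2 ^ (B + 1) := lt_trans (Nat.lt_succ_self B) Nat.lt_two_pow_self
    have h8 := h3.eq_of_lt_of_lt (by omega) (by omega)
    omega

/-- `b = 1` -/
theorem HS.one {K : Type} [Field K] [NumberField K] {x : K} (hx : x ≠ 0) : HS K 0 x 1 := by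
  obtain ⟨a, c, ha, hc, hac⟩ := exists_int_sq hx
  refine ⟨a, 1, c, 1, ha, one_ne_zero, hc, one_ne_zero, hac, by simp, ?_⟩
  intro p hp hp0 hmem
  right
  obtain ⟨α, hα⟩ := exists_val hp ha
  refine ⟨α, 0, hα, val_zero_iff.2 ((Ideal.ne_top_iff_one p).1 hp.ne_top), ?_⟩
  by_cases h1 : Even α
  · exact Or.inl ⟨h1, Even.zero⟩
  · exact Or.inr (Or.inl ⟨h1, Even.zero, 1, by simp⟩)

/-- **SOLVE.** the algebraic block for `HS` -/
theorem solve (K : Type) [Field K] [NumberField K] (J : ℕ) (halg : AlgStmt K J) :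
    ∃ (L : Type) (_ : Field L) (_ : Algebra K L), FiniteDimensional K L ∧
      ∀ x y : K, HS K J x y → x ≠ 0 ∧ y ≠ 0 ∧
        ∃ X Y : L, X ^ 2 - algebraMap K L x * Y ^ 2 = algebraMap K L y := by
  obtain ⟨F, hfin, hF⟩ := halg
  refine ⟨F, inferInstance, inferInstance, hfin, ?_⟩
  intro x y h
  refine ⟨h.ne_zero.1, h.ne_zero.2, ?_⟩
  obtain ⟨a, b, c, d, ha, hb, hc, hd, hac, hbd, hp⟩ := h
  obtain ⟨X, Y, hXY⟩ := hF a b ha hb hp
  have hd' : algebraMap K F d ≠ 0 := by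
    rw [Ne, FaithfulSMul.algebraMap_eq_zero_iff]
    exact hd
  refine ⟨X / algebraMap K F d, algebraMap K F c * Y / algebraMap K F d, ?_⟩
  rw [hac, hbd, map_mul, map_mul, map_pow, map_pow] at hXY
  field_simp
  linear_combination hXY

end Pool.Agent.Helper65.CB
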