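import Pool.Agent.Helper65.CB.TEDefs

/-!
# CB, theorem T-E: functoriality of `LCU`, and `LC` from `LCU` in one variable
-/

set_option autoImplicit false

namespace Pool.Agent.Helper65.CB

open Polynomial Pool.Agent.Helper16.CB

/-- **LCUMAP.** functoriality -/
theorem lcu_map {A B : Type*} [CommRing A] [CommRing B] [IsDomain B] [WfDvdMonoid B]
    (ψ : A →+* B) {Q : B} (hQ : Prime Q) {P a1 b1 g h : A} {e f : ℕ} (hP : ψ P ≠ 0)
    (hQP : Q ∣ ψ P) (hG : ¬ Q ∣ ψ (a1 * b1 * g))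
    (ht : P ∣ g ^ 2 * ((-1) ^ (e * f) * (a1 ^ f * b1 ^ e)) - h ^ 2) :
    LCU Q (ψ (P ^ e * a1)) (ψ (P ^ f * b1)) := by
  have hfin : FiniteMultiplicity Q (ψ P) := FiniteMultiplicity.of_prime_left hQ hP
  obtain ⟨Q1, hQ1, hQ1n⟩ := hfin.exists_eq_pow_mul_and_not_dvd
  set k := multiplicity Q (ψ P) with hk
  have ha1 : ¬ Q ∣ ψ a1 := fun h1 => hG (by
    rw [map_mul, map_mul]
    exact (h1.mul_right _).mul_right _)
  have hb1 : ¬ Q ∣ ψ b1 := fun h1 => hG (by
    rw [map_mul, map_mul]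
    exact (h1.mul_left _).mul_right _)
  have hg : ¬ Q ∣ ψ g := fun h1 => hG (by
    rw [map_mul, map_mul]
    exact h1.mul_left _)
  refine ⟨k * e, k * f, Q1 ^ e * ψ a1, Q1 ^ f * ψ b1, ψ g ^ k, Q1 ^ (e * f * k) * ψ h ^ k,
    ?_, ?_, ?_, ?_, ?_, ?_⟩
  · rw [map_mul, map_pow, hQ1, mul_pow, ← pow_mul]
    ring
  · rw [map_mul, map_pow, hQ1, mul_pow, ← pow_mul]
    ring
  · intro h1
    rcases hQ.dvd_or_dvd h1 with h2 | h2
    · exact hQ1n (hQ.dvd_of_dvd_pow h2)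
    · exact ha1 h2
  · intro h1
    rcases hQ.dvd_or_dvd h1 with h2 | h2
    · exact hQ1n (hQ.dvd_of_dvd_pow h2)
    · exact hb1 h2
  · intro h1
    exact hg (hQ.dvd_of_dvd_pow h1)
  · have hsign : ((-1 : B)) ^ (k * e * (k * f)) = ((-1) ^ (e * f)) ^ k := by
      rw [← pow_mul]
      rcases Nat.even_or_odd k with hk2 | hk2
      · rw [Even.neg_one_pow (Even.mul_right (Even.mul_right hk2 _) _),
          Even.neg_one_pow (Even.mul_left hk2 _)]
      · rcases Nat.even_or_odd (e * f) with h3 | h3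
        · have h4 : Even (k * e * (k * f)) := by
            have : k * e * (k * f) = (k * k) * (e * f) := by ring
            rw [this]
            exact Even.mul_left h3 _
          rw [Even.neg_one_pow h4, Even.neg_one_pow (Even.mul_right h3 _)]
        · have h4 : Odd (k * e * (k * f)) := by
            have : k * e * (k * f) = (k * k) * (e * f) := by ring
            rw [this]
            exact (hk2.mul hk2).mul h3
          rw [Odd.neg_one_pow h4, Odd.neg_one_pow (h3.mul hk2)]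
    have hid : (ψ g ^ k) ^ 2 * ((-1) ^ (k * e * (k * f)) *
          ((Q1 ^ e * ψ a1) ^ (k * f) * (Q1 ^ f * ψ b1) ^ (k * e))) -
          (Q1 ^ (e * f * k) * ψ h ^ k) ^ 2 =
        Q1 ^ (2 * (e * f * k)) *
          ((ψ (g ^ 2 * ((-1) ^ (e * f) * (a1 ^ f * b1 ^ e)))) ^ k - (ψ (h ^ 2)) ^ k) := by
      rw [hsign]
      simp only [map_mul, map_pow, map_neg, map_one]
      ring
    rw [hid]
    refine Dvd.dvd.mul_left (Dvd.dvd.trans ?_ (sub_dvd_pow_sub_pow _ _ k)) _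
    rw [← map_sub]
    exact hQP.trans (map_dvd ψ ht)

/-- square roots modulo `Q` -/
theorem exists_sqrt_of {K : Type} [Field K] {Q w c h : K[X]} (hQ : Irreducible Q) (hw : ¬ Q ∣ w)
    (hh : Q ∣ w ^ 2 * c - h ^ 2) : ∃ h1 : K[X], Q ∣ c - h1 ^ 2 := by
  have hcop : IsCoprime Q w := (EuclideanDomain.dvd_or_coprime Q w hQ).resolve_left hw
  obtain ⟨v, u, huv⟩ := hcop
  refine ⟨u * h, ?_⟩
  have hid : c - (u * h) ^ 2 = c * (1 + u * w) * (1 - u * w) + u ^ 2 * (w ^ 2 * c - h ^ 2) := by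
    ring
  rw [hid]
  refine Dvd.dvd.add (Dvd.dvd.mul_left ?_ _) (Dvd.dvd.mul_left hh _)
  refine ⟨v, ?_⟩
  rw [← huv]
  ring

/-- **LCULC.** -/
theorem lc_of_lcu {K : Type} [Field K] {Q a b : K[X]} (hQ : Irreducible Q) (h : LCU Q a b) :
    LC (Ideal.span {Q}) a b := by
  obtain ⟨e, f, a1, b1, g, h, rfl, rfl, ha1, hb1, hg, ht⟩ := h
  have hp : Prime Q := hQ.prime
  have hQ0 : Q ≠ 0 := hQ.ne_zero
  have hval : ∀ (n : ℕ) (c : K[X]), ¬ Q ∣ c → Val (Ideal.span {Q}) (Q ^ n * c) n := by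
    intro n c hc
    refine ⟨?_, ?_⟩
    · rw [Ideal.span_singleton_pow, Ideal.mem_span_singleton]
      exact Dvd.intro _ rfl
    · rw [Ideal.span_singleton_pow, Ideal.mem_span_singleton]
      intro h1
      rw [pow_succ] at h1
      exact hc ((mul_dvd_mul_iff_left (pow_ne_zero n hQ0)).1 h1)
  have hw : ∀ l m : ℕ, ¬ Q ∣ g * (a1 ^ m * b1 ^ l) := by
    intro l m h1
    rcases hp.dvd_or_dvd h1 with h2 | h2
    · exact hg h2
    · rcases hp.dvd_or_dvd h2 with h3 | h3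
      · exact ha1 (hp.dvd_of_dvd_pow h3)
      · exact hb1 (hp.dvd_of_dvd_pow h3)
  refine ⟨e, f, hval e a1 ha1, hval f b1 hb1, ?_⟩
  rcases Nat.even_or_odd' e with ⟨l, rfl | rfl⟩ <;> rcases Nat.even_or_odd' f with ⟨m, rfl | rfl⟩
  · exact Or.inl ⟨even_two_mul l, even_two_mul m⟩
  · have hs : ((-1 : K[X])) ^ (2 * l * (2 * m + 1)) = 1 :=
      Even.neg_one_pow (Even.mul_right (even_two_mul l) _)
    obtain ⟨h1, hh1⟩ := exists_sqrt_of (c := a1) (h := h) hQ (hw l m) (by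
      rw [hs] at ht
      convert ht using 2
      ring)
    refine Or.inr (Or.inr (Or.inl ⟨even_two_mul l, Nat.not_even_bit1 m, Q ^ l * h1, ?_⟩))
    rw [Ideal.span_singleton_pow, Ideal.mem_span_singleton]
    have hid : Q ^ (2 * l) * a1 - (Q ^ l * h1) ^ 2 = Q ^ (2 * l) * (a1 - h1 ^ 2) := by ring
    rw [hid, pow_succ]
    exact mul_dvd_mul_left _ hh1
  · have hs : ((-1 : K[X])) ^ ((2 * l + 1) * (2 * m)) = 1 :=
      Even.neg_one_pow (Even.mul_left (even_two_mul m) _)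
    obtain ⟨h1, hh1⟩ := exists_sqrt_of (c := b1) (h := h) hQ (hw l m) (by
      rw [hs] at ht
      convert ht using 2
      ring)
    refine Or.inr (Or.inl ⟨Nat.not_even_bit1 l, even_two_mul m, Q ^ m * h1, ?_⟩)
    rw [Ideal.span_singleton_pow, Ideal.mem_span_singleton]
    have hid : Q ^ (2 * m) * b1 - (Q ^ m * h1) ^ 2 = Q ^ (2 * m) * (b1 - h1 ^ 2) := by ring
    rw [hid, pow_succ]
    exact mul_dvd_mul_left _ hh1
  · have hs : ((-1 : K[X])) ^ ((2 * l + 1) * (2 * m + 1)) = -1 :=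
      Odd.neg_one_pow ((odd_two_mul_add_one l).mul (odd_two_mul_add_one m))
    obtain ⟨h1, hh1⟩ := exists_sqrt_of (c := -(a1 * b1)) (h := h) hQ (hw l m) (by
      rw [hs] at ht
      convert ht using 2
      ring)
    refine Or.inr (Or.inr (Or.inr ⟨Nat.not_even_bit1 l, Nat.not_even_bit1 m,
      Q ^ (l + m + 1) * h1, ?_⟩))
    rw [Ideal.span_singleton_pow, Ideal.mem_span_singleton]
    have hid : -(Q ^ (2 * l + 1) * a1 * (Q ^ (2 * m + 1) * b1)) - (Q ^ (l + m + 1) * h1) ^ 2 =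
        Q ^ (2 * l + 1 + (2 * m + 1)) * (-(a1 * b1) - h1 ^ 2) := by ring
    rw [hid, pow_succ]
    exact mul_dvd_mul_left _ hh1

end Pool.Agent.Helper65.CB
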