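import Pool.Agent.Helper65.CB.Line
import Pool.Agent.Helper65.CB.LCUF

/-!
# CB, theorem T-E: the path along the coordinate lines
-/

set_option autoImplicit false

namespace Pool.Agent.Helper65.CB

open NumberField Polynomial Pool.Agent.Helper4.CB Pool.Agent.Helper16.CB

/-- the elimination statement -/
def Elim (K : Type) [Field K] : Prop := ∀ (σ : Type) [Fintype σ] [DecidableEq σ]
    (P G : MvPolynomial σ K), Irreducible P → ¬ P ∣ G → ∀ j : σ,
    ∃ u v R : MvPolynomial σ K, R ≠ 0 ∧ R.degreeOf j = 0 ∧ u * P + v * G = R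

theorem per_factor {K : Type} [Field K] (hel : Elim K) {σ : Type} [Fintype σ]
    [DecidableEq σ] {dm : ℕ} {a b P : MvPolynomial σ K} (hP : Irreducible P)
    (h : (∀ j, P.degreeOf j ≤ dm) ∨ LCU P a b) :
    ∃ R : MvPolynomial σ K, R ≠ 0 ∧ ∀ (j : σ) (y : σ → K), MvPolynomial.eval y R ≠ 0 →
      line y j P ≠ 0 → ∀ Q : K[X], Irreducible Q → Q ∣ line y j P →
        Q.natDegree ≤ dm ∨ LCU Q (line y j a) (line y j b) := by
  rcases h with h | h
  · refine ⟨1, one_ne_zero, ?_⟩
    intro j y _ h0 Q hQ hQP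
    left
    exact (Polynomial.natDegree_le_of_dvd hQP h0).trans ((natDegree_line_le y j P).trans (h j))
  · obtain ⟨e, f, a1, b1, g, h, rfl, rfl, ha1, hb1, hg, ht⟩ := h
    have hG : ¬ P ∣ a1 * b1 * g := by
      intro h1
      rcases hP.prime.dvd_or_dvd h1 with h2 | h2
      · rcases hP.prime.dvd_or_dvd h2 with h3 | h3
        · exact ha1 h3
        · exact hb1 h3
      · exact hg h2
    choose u v R hR0 hRj hR using fun j => hel σ P (a1 * b1 * g) hP hG j
    refine ⟨∏ j, R j, Finset.prod_ne_zero_iff.2 fun j _ => hR0 j, ?_⟩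
    intro j y hy h0 Q hQ hQP
    right
    have hyj : MvPolynomial.eval y (R j) ≠ 0 := by
      intro h1
      apply hy
      rw [map_prod]
      exact Finset.prod_eq_zero (Finset.mem_univ j) h1
    refine lcu_map (line y j : MvPolynomial σ K →+* K[X]) hQ.prime h0 hQP ?_ ht
    intro h1
    have h2 : Q ∣ line y j (R j) := by
      rw [← hR j, map_add, map_mul, map_mul]
      exact (hQP.mul_left _).add (Dvd.dvd.mul_left h1 _)
    rw [line_of_degreeOf y j (hRj j)] at h2
    apply hQ.not_isUnit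
    exact isUnit_of_dvd_unit h2 (Polynomial.isUnit_C.2 (isUnit_iff_ne_zero.2 hyj))

/-- **PATH1.** one coordinate of the path -/
theorem path_step (K : Type) [Field K] [NumberField K] (hel : Elim K) (dm : ℕ)
    (hs : StepC K dm) {σ : Type} [Fintype σ] [DecidableEq σ] {a b : MvPolynomial σ K}
    (ha : a ≠ 0) (hb : b ≠ 0)
    (hP : ∀ P : MvPolynomial σ K, Irreducible P → P ∣ a * b →
      (∀ j, P.degreeOf j ≤ dm) ∨ LCU P a b) :
    ∃ R : MvPolynomial σ K, R ≠ 0 ∧ ∀ J0 : ℕ, ∃ J : ℕ, J0 ≤ J ∧ ∀ (j : σ) (y : σ → K),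
      MvPolynomial.eval y R ≠ 0 → HS K J0 (MvPolynomial.eval y a) (MvPolynomial.eval y b) →
      ∀ Z : Finset K, ∃ s : K, s ∉ Z ∧ HS K J (MvPolynomial.eval (Function.update y j s) a)
        (MvPolynomial.eval (Function.update y j s) b) := by
  classical
  have hab : a * b ≠ 0 := mul_ne_zero ha hb
  have key : ∀ P : MvPolynomial σ K, ∃ R : MvPolynomial σ K, R ≠ 0 ∧
      (P ∈ UniqueFactorizationMonoid.factors (a * b) →
        ∀ (j : σ) (y : σ → K), MvPolynomial.eval y R ≠ 0 →
        line y j P ≠ 0 → ∀ Q : K[X], Irreducible Q → Q ∣ line y j P →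
        Q.natDegree ≤ dm ∨ LCU Q (line y j a) (line y j b)) := by
    intro P
    by_cases hPm : P ∈ UniqueFactorizationMonoid.factors (a * b)
    · have hirr := UniqueFactorizationMonoid.irreducible_of_factor P hPm
      obtain ⟨R, hR0, hR⟩ := per_factor hel hirr
        (hP P hirr (UniqueFactorizationMonoid.dvd_of_mem_factors hPm))
      exact ⟨R, hR0, fun _ => hR⟩
    · exact ⟨1, one_ne_zero, fun h => absurd h hPm⟩
  choose R hR0 hR using key
  refine ⟨∏ P ∈ (UniqueFactorizationMonoid.factors (a * b)).toFinset, R P,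
    Finset.prod_ne_zero_iff.2 fun P _ => hR0 P, ?_⟩
  intro J0
  obtain ⟨J, hJ0, hJ⟩ := hs (∑ j, (a.degreeOf j + b.degreeOf j)) J0
  refine ⟨J, hJ0, ?_⟩
  intro j y hy hHS Z
  have hne := hHS.ne_zero
  have hla : (line y j a).eval (y j) = MvPolynomial.eval y a := by
    rw [eval_line, Function.update_eq_self]
  have hlb : (line y j b).eval (y j) = MvPolynomial.eval y b := by
    rw [eval_line, Function.update_eq_self]
  have ha0 : line y j a ≠ 0 := by
    intro h1
    rw [h1, Polynomial.eval_zero] at hla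
    exact hne.1 hla.symm
  have hb0 : line y j b ≠ 0 := by
    intro h1
    rw [h1, Polynomial.eval_zero] at hlb
    exact hne.2 hlb.symm
  obtain ⟨s, hsZ, hs'⟩ := hJ (line y j a) (line y j b) ha0 hb0 (by
    refine (Polynomial.natDegree_mul_le).trans ?_
    refine (Nat.add_le_add (natDegree_line_le y j a) (natDegree_line_le y j b)).trans ?_
    exact Finset.single_le_sum (f := fun j => a.degreeOf j + b.degreeOf j)
      (fun _ _ => Nat.zero_le _) (Finset.mem_univ j)) (by
    intro Q hQ hQab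
    have h1 : Q ∣ (line y j) ((UniqueFactorizationMonoid.factors (a * b)).prod) := by
      have h2 := UniqueFactorizationMonoid.factors_prod hab
      have h3 : Associated (line y j ((UniqueFactorizationMonoid.factors (a * b)).prod))
          (line y j (a * b)) := h2.map (line y j)
      refine hQab.trans ?_
      rw [← map_mul]
      exact h3.symm.dvd
    rw [map_multiset_prod] at h1
    obtain ⟨q, hq, hQq⟩ := hQ.prime.exists_mem_multiset_dvd h1
    obtain ⟨P, hPm, rfl⟩ := Multiset.mem_map.1 hq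
    have hP0 : line y j P ≠ 0 := by
      intro h2
      have h3 : line y j (a * b) = 0 := by
        obtain ⟨c, hc⟩ := UniqueFactorizationMonoid.dvd_of_mem_factors hPm
        rw [hc, map_mul, h2, zero_mul]
      rw [map_mul] at h3
      exact mul_ne_zero ha0 hb0 h3
    have hyP : MvPolynomial.eval y (R P) ≠ 0 := by
      intro h1
      apply hy
      rw [map_prod]
      exact Finset.prod_eq_zero (Multiset.mem_toFinset.2 hPm) h1
    rcases hR P hPm j y hyP hP0 Q hQ hQq with h4 | h4
    · exact Or.inl h4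
    · exact Or.inr (lc_of_lcu hQ h4)) (y j) (by
    rw [hla, hlb]
    exact hHS) Z
  refine ⟨s, hsZ, ?_⟩
  rw [eval_line, eval_line] at hs'
  exact hs'

/-- **PATH.** -/
theorem path (K : Type) [Field K] [NumberField K] (hel : Elim K) (dm : ℕ) (hs : StepC K dm)
    {σ : Type} [Fintype σ] [DecidableEq σ] {a b : MvPolynomial σ K} (ha : a ≠ 0) (hb : b ≠ 0)
    (hP : ∀ P : MvPolynomial σ K, Irreducible P → P ∣ a * b →
      (∀ j, P.degreeOf j ≤ dm) ∨ LCU P a b) :
    ∃ J, HD K (MvPolynomial σ K) J a b := by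
  classical
  obtain ⟨R, hR0, hR⟩ := path_step K hel dm hs ha hb hP
  have hne : ∀ f : MvPolynomial σ K, f ≠ 0 → ∃ z : σ → K, MvPolynomial.eval z f ≠ 0 := by
    intro f hf
    by_contra hcon
    push Not at hcon
    apply hf
    apply MvPolynomial.funext
    intro z
    rw [hcon z, map_zero]
  obtain ⟨c, hc⟩ := hne (R * (a * b)) (mul_ne_zero hR0 (mul_ne_zero ha hb))
  rw [map_mul, map_mul] at hc
  have hcR : MvPolynomial.eval c R ≠ 0 := left_ne_zero_of_mul hc
  have hca : MvPolynomial.eval c a ≠ 0 := left_ne_zero_of_mul (right_ne_zero_of_mul hc)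
  have hcb : MvPolynomial.eval c b ≠ 0 := right_ne_zero_of_mul (right_ne_zero_of_mul hc)
  have main : ∀ T : Finset σ, ∃ J : ℕ, ∀ f : MvPolynomial σ K, f ≠ 0 → ∃ x z : σ → K,
      (∀ i ∈ T, x i = z i) ∧ MvPolynomial.eval z f ≠ 0 ∧ MvPolynomial.eval x R ≠ 0 ∧
      HS K J (MvPolynomial.eval x a) (MvPolynomial.eval x b) := by
    intro T
    induction T using Finset.induction_on with
    | empty =>
      obtain ⟨J, hJ⟩ := HS.exists hca hcb
      refine ⟨J, ?_⟩
      intro f hf
      obtain ⟨z, hz⟩ := hne f hf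
      exact ⟨c, z, by simp, hz, hcR, hJ⟩
    | insert j T hj ih =>
      obtain ⟨J0, ih⟩ := ih
      obtain ⟨J, hJ0, hJ⟩ := hR J0
      refine ⟨J, ?_⟩
      intro f hf
      obtain ⟨x, z, hxz, hz, hx, hHS⟩ := ih f hf
      obtain ⟨Z1, hZ1⟩ := exists_finset_roots x j hx
      obtain ⟨Z2, hZ2⟩ := exists_finset_roots z j hz
      obtain ⟨s, hs, hs'⟩ := hJ j x hx hHS (Z1 ∪ Z2)
      rw [Finset.mem_union, not_or] at hs
      refine ⟨Function.update x j s, Function.update z j s, ?_, hZ2 s hs.2, hZ1 s hs.1, hs'⟩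
      intro i hi
      by_cases hij : i = j
      · subst hij
        simp
      · rw [Function.update_of_ne hij, Function.update_of_ne hij]
        exact hxz i ((Finset.mem_insert.1 hi).resolve_left hij)
  obtain ⟨J, hJ⟩ := main Finset.univ
  refine ⟨J, ?_⟩
  intro f hf
  obtain ⟨x, z, hxz, hz, -, hHS⟩ := hJ f hf
  have hx : x = z := funext fun i => hxz i (Finset.mem_univ i)
  subst hx
  refine ⟨MvPolynomial.aeval x, ?_, ?_⟩
  · rw [MvPolynomial.aeval_eq_eval]
    exact hz
  · rw [MvPolynomial.aeval_eq_eval]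
    exact hHS

/-- **PATHM.** the same after a finite extension `M` of `K` -/
theorem path_ext (K M : Type) [Field K] [NumberField K] [Field M] [NumberField M] [Algebra K M]
    (hel : Elim M) (dm : ℕ) (hs : StepC M dm) {σ : Type}
    [Fintype σ] [DecidableEq σ] {a b : MvPolynomial σ K} (ha : a ≠ 0) (hb : b ≠ 0)
    (hP : ∀ P : MvPolynomial σ M, Irreducible P →
      P ∣ MvPolynomial.map (algebraMap K M) a * MvPolynomial.map (algebraMap K M) b →
      (∀ j, P.degreeOf j ≤ dm) ∨
        LCU P (MvPolynomial.map (algebraMap K M) a) (MvPolynomial.map (algebraMap K M) b)) :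
    ∃ J, HDM K M (MvPolynomial σ K) J a b := by
  have hinj : Function.Injective (MvPolynomial.map (σ := σ) (algebraMap K M)) :=
    MvPolynomial.map_injective _ (algebraMap K M).injective
  have hne : ∀ f : MvPolynomial σ K, f ≠ 0 → MvPolynomial.map (algebraMap K M) f ≠ 0 := by
    intro f hf h
    apply hf
    apply hinj
    rw [h, map_zero]
  obtain ⟨J, hJ⟩ := path M hel dm hs (hne a ha) (hne b hb) hP
  refine ⟨J, ?_⟩
  intro f hf
  obtain ⟨φ, hφ, hHS⟩ := hJ _ (hne f hf)
  refine ⟨(φ.restrictScalars K).comp (MvPolynomial.mapAlgHom (Algebra.ofId K M)), ?_, ?_⟩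
  · exact hφ
  · exact hHS

end Pool.Agent.Helper65.CB
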