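import Pool.Agent.Helper65.CB.TDefs

/-!
# CB, tower form: frames
-/

set_option autoImplicit false

namespace Pool.Agent.Helper65.CB

open NumberField Polynomial Pool.Agent.Helper4.CB Pool.Agent.Helper16.CB
open AlgebraicGeometry CategoryTheory Pool.Agent.Helper15 Pool.Agent.Helper3.CB

/-- **TWIST.** `(odd, even)`: `h * σ`; `(odd, odd)`: `h * ρ * σ`. -/
theorem lc_twist {R : Type*} [CommRing R] [IsDedekindDomain R] {q : Ideal R} (hq : q.IsPrime)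
    (hq0 : q ≠ ⊥) {a b a' b' ρ σ : R} (hρ : ρ ∉ q) (hσ : σ ∉ q) (ha : a' - ρ ^ 2 ∈ q)
    (hb : b' - σ ^ 2 ∈ q) (h : LC q a b) : LC q (a * a') (b * b') := by
  sorry

/-- **LC2.** at the primes above two the local condition always holds -/
theorem lc_two {K : Type} [Field K] [NumberField K] {p : Ideal (𝓞 K)} (hp : p.IsPrime)
    (hp0 : p ≠ ⊥) (h2 : (2 : 𝓞 K) ∈ p) {a b : 𝓞 K} (ha : a ≠ 0) (hb : b ≠ 0) : LC p a b := by
  sorry

theorem HS.mono {K : Type} [Field K] [NumberField K] {J J' : ℕ} (h : J ≤ J') {x y : K}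
    (hx : HS K J x y) : HS K J' x y := by
  sorry

theorem HS.sq {K : Type} [Field K] [NumberField K] {J : ℕ} {x y c d : K} (hc : c ≠ 0) (hd : d ≠ 0)
    (hx : HS K J x y) : HS K J (c ^ 2 * x) (d ^ 2 * y) := by
  sorry

/-- **START.** -/
theorem HS.exists {K : Type} [Field K] [NumberField K] {x y : K} (hx : x ≠ 0) (hy : y ≠ 0) :
    ∃ J, HS K J x y := by
  sorry

/-- `b = 1` -/
theorem HS.one {K : Type} [Field K] [NumberField K] {x : K} (hx : x ≠ 0) : HS K 0 x 1 := by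
  sorry

/-- **SOLVE.** the algebraic block for `HS` -/
theorem solve (K : Type) [Field K] [NumberField K] (J : ℕ) (halg : AlgStmt K J) :
    ∃ (L : Type) (_ : Field L) (_ : Algebra K L), FiniteDimensional K L ∧
      ∀ x y : K, HS K J x y → x ≠ 0 ∧ y ≠ 0 ∧
        ∃ X Y : L, X ^ 2 - algebraMap K L x * Y ^ 2 = algebraMap K L y := by
  sorry

/-- **STEPA.** the integral form of the step -/
theorem stepA (K : Type) [Field K] [NumberField K] (dm : ℕ) (hs : SieveStmt2 K dm) (D J0 : ℕ) :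
    ∃ J : ℕ, J0 ≤ J ∧ ∀ S : Finset (𝓞 K)[X], S.card ≤ D →
    (∀ P ∈ S, P.Monic ∧ 1 ≤ P.natDegree ∧ P.natDegree ≤ dm ∧
      Irreducible (P.map (algebraMap (𝓞 K) K))) →
    ∀ e f : (𝓞 K)[X] → ℕ, ∀ α β : 𝓞 K, α ≠ 0 → β ≠ 0 →
    (∀ p : Ideal (𝓞 K), p.IsPrime → p ≠ ⊥ → α * β ∈ p → Harm J0 α β p) →
    ∀ m1 : ℕ, m1 ≠ 0 → ∀ Z : Finset K,
    ∃ (m : ℕ) (u v : 𝓞 K), m ≠ 0 ∧ v ≠ 0 ∧ m1 ∣ m ∧ (u : K) / (m * v) ∉ Z ∧
      (∀ P ∈ S, hv P u (m * v) ≠ 0) ∧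
      ∀ p : Ideal (𝓞 K), p.IsPrime → p ≠ ⊥ →
        (α * v ^ (∑ P ∈ S, e P * P.natDegree) * ∏ P ∈ S, hv P u (m * v) ^ e P) *
        (β * v ^ (∑ P ∈ S, f P * P.natDegree) * ∏ P ∈ S, hv P u (m * v) ^ f P) ∈ p →
        Harm J (α * v ^ (∑ P ∈ S, e P * P.natDegree) * ∏ P ∈ S, hv P u (m * v) ^ e P)
          (β * v ^ (∑ P ∈ S, f P * P.natDegree) * ∏ P ∈ S, hv P u (m * v) ^ f P) p := by
  sorry

/-- **STEP.** -/
theorem step (K : Type) [Field K] [NumberField K] (dm : ℕ) (hs : SieveStmt2 K dm) :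
    StepStmt K dm := by
  sorry

/-- **HDSTEP.** one more variable over a base `R` -/
theorem hd_step (K : Type) [Field K] [NumberField K] (dm : ℕ) (hs : StepStmt K dm) (R : Type)
    [CommRing R] [IsDomain R] [Algebra K R] (J0 : ℕ) (k : ℕ) (F : Fin k → R[X])
    (hF : ∀ i, (F i).natDegree ≤ dm) (α β : R) (e f : Fin k → ℕ) (a b : R[X]) (ha0 : a ≠ 0)
    (hb0 : b ≠ 0) (ha : a = C α * ∏ i, F i ^ e i) (hb : b = C β * ∏ i, F i ^ f i)
    (hd : HD K R J0 a.leadingCoeff b.leadingCoeff) :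
    ∃ J, HD K R[X] J a b := by
  sorry

/-- **TOWER.** -/
theorem tower (K : Type) [Field K] [NumberField K] (dm : ℕ) (hs : StepStmt K dm) (n : ℕ)
    (a b : MvPolynomial (Fin n) K) (ha : a ≠ 0) (hb : b ≠ 0)
    (k : ℕ) (F : Fin k → MvPolynomial (Fin n) K) (hF : ∀ i j, (F i).degreeOf j ≤ dm)
    (e f : Fin k → ℕ) (hae : a = ∏ i, F i ^ e i) (hbf : b = ∏ i, F i ^ f i) :
    ∃ J, HD K (MvPolynomial (Fin n) K) J a b := by
  sorry

/-- **ENDHD.** -/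
theorem end_hd (K : Type) [Field K] [NumberField K] (halg : ∀ J, AlgStmt K J) (A : Type)
    [CommRing A] [IsDomain A] [Algebra K A] (a b : A) (ha : a ≠ 0) (hb : b ≠ 0) (J : ℕ)
    (hd : HD K A J a b)
    (X : Scheme.{0}) (s : X ⟶ Spec (CommRingCat.of K)) [IrreducibleSpace X]
    (hX : BirationalOver K X (Spec (CommRingCat.of (MvPolynomial (Fin 2) A ⧸ Ideal.span
      {(MvPolynomial.X 0 ^ 2 - MvPolynomial.C a * MvPolynomial.X 1 ^ 2 - MvPolynomial.C b :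
        MvPolynomial (Fin 2) A)}))) s
      (Spec.map (CommRingCat.ofHom (algebraMap K (MvPolynomial (Fin 2) A ⧸ Ideal.span
      {(MvPolynomial.X 0 ^ 2 - MvPolynomial.C a * MvPolynomial.X 1 ^ 2 - MvPolynomial.C b :
        MvPolynomial (Fin 2) A)}))))) :
    PotentiallyDense K X s := by
  sorry

end Pool.Agent.Helper65.CB
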