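import Pool.Agent.Helper65.CB.TEDefs

/-!
# CB, theorem T-E: restriction to coordinate lines
-/

set_option autoImplicit false

namespace Pool.Agent.Helper65.CB

open Polynomial

theorem eval_line {K : Type} [Field K] {σ : Type} [DecidableEq σ] (y : σ → K) (j : σ)
    (a : MvPolynomial σ K) (s : K) :
    (line y j a).eval s = MvPolynomial.eval (Function.update y j s) a := by
  have h : (Polynomial.aeval s).comp (line y j) =
      (MvPolynomial.aeval (Function.update y j s) : MvPolynomial σ K →ₐ[K] K) := by
    apply MvPolynomial.algHom_ext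
    intro i
    simp only [line, AlgHom.comp_apply, MvPolynomial.aeval_X]
    by_cases hi : i = j
    · subst hi
      simp
    · rw [Function.update_of_ne hi, Function.update_of_ne hi]
      simp
  have h1 := DFunLike.congr_fun h a
  rw [AlgHom.comp_apply] at h1
  rw [← MvPolynomial.coe_aeval_eq_eval, ← Polynomial.coe_aeval_eq_eval]
  exact h1

theorem natDegree_line_le {K : Type} [Field K] {σ : Type} [DecidableEq σ] (y : σ → K) (j : σ)
    (a : MvPolynomial σ K) : (line y j a).natDegree ≤ a.degreeOf j := by
  unfold line
  rw [MvPolynomial.aeval_def, MvPolynomial.eval₂_eq]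
  apply Polynomial.natDegree_sum_le_of_forall_le
  intro d hd
  refine le_trans ?_ (MvPolynomial.monomial_le_degreeOf j hd)
  change (C (MvPolynomial.coeff d a) * _).natDegree ≤ _
  refine (Polynomial.natDegree_C_mul_le _ _).trans ?_
  refine (Polynomial.natDegree_prod_le _ _).trans ?_
  have h1 : ∀ i ∈ d.support, (Function.update (fun i => C (y i)) j (X : K[X]) i ^ d i).natDegree ≤
      if i = j then d i else 0 := by
    intro i _
    by_cases hi : i = j
    · subst hi
      rw [Function.update_self, if_pos rfl, Polynomial.natDegree_X_pow]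
    · rw [Function.update_of_ne hi, if_neg hi, ← C_pow, Polynomial.natDegree_C]
  refine (Finset.sum_le_sum h1).trans ?_
  rw [Finset.sum_ite_eq']
  split_ifs
  · exact le_rfl
  · exact Nat.zero_le _

theorem line_of_degreeOf {K : Type} [Field K] {σ : Type} [DecidableEq σ] (y : σ → K) (j : σ)
    {a : MvPolynomial σ K} (h : a.degreeOf j = 0) : line y j a = C (MvPolynomial.eval y a) := by
  have h1 : (line y j a).natDegree = 0 := by
    have := natDegree_line_le y j a
    omega
  have h2 := eval_line y j a (y j)
  rw [Function.update_eq_self] at h2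
  rw [Polynomial.eq_C_of_natDegree_eq_zero h1] at h2 ⊢
  rw [← h2, Polynomial.eval_C]

/-- the set of `s` with `f (y; s) = 0` is finite if it is not everything -/
theorem exists_finset_roots {K : Type} [Field K] {σ : Type} [DecidableEq σ] (y : σ → K) (j : σ)
    {f : MvPolynomial σ K} (h : MvPolynomial.eval y f ≠ 0) :
    ∃ Z : Finset K, ∀ s, s ∉ Z → MvPolynomial.eval (Function.update y j s) f ≠ 0 := by
  classical
  have h0 : line y j f ≠ 0 := by
    intro h1
    apply h
    have h2 := eval_line y j f (y j)
    rw [Function.update_eq_self, h1, Polynomial.eval_zero] at h2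
    exact h2.symm
  refine ⟨(line y j f).roots.toFinset, ?_⟩
  intro s hs h1
  apply hs
  rw [Multiset.mem_toFinset, Polynomial.mem_roots h0, Polynomial.IsRoot, eval_line]
  exact h1

end Pool.Agent.Helper65.CB
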