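import Pool.Agent.Helper65.CB.TEDefs

/-!
# CB: definitions for the chain with points of conics (`Sol`) in place of `HS`
-/

set_option autoImplicit false

namespace Pool.Agent.Helper65.CB

open NumberField Polynomial Pool.Agent.Helper4.CB Pool.Agent.Helper16.CB

/-- the conic `X ^ 2 = x Y ^ 2 + y Z ^ 2` is smooth and has a point over `L` -/
def CP (L : Type) [Field L] (x y : L) : Prop :=
  x ≠ 0 ∧ y ≠ 0 ∧ ∃ X Y Z : L, (X ≠ 0 ∨ Y ≠ 0 ∨ Z ≠ 0) ∧ X ^ 2 = x * Y ^ 2 + y * Z ^ 2

/-- **STEPSOL**: if the conic has a point over `K` at some `c` in `K`, then it has points over one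
finite extension `L` at many `s` in `K`; `L` depends on `K`, `D` only. -/
def StepSol (dm : ℕ) : Prop :=
  ∀ (K : Type) [Field K] [NumberField K] (D : ℕ), ∃ (L : Type) (_ : Field L) (_ : NumberField L)
    (_ : Algebra K L), ∀ a b : K[X], a ≠ 0 → b ≠ 0 → (a * b).natDegree ≤ D →
    (∀ P : K[X], Irreducible P → P ∣ a * b → P.natDegree ≤ dm ∨ LC (Ideal.span {P}) a b) →
    ∀ c : K, CP K (a.eval c) (b.eval c) →
    ∀ Z : Finset K, ∃ s : K, s ∉ Z ∧ CP L (algebraMap K L (a.eval s)) (algebraMap K L (b.eval s))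

/-- **TSEN**: in one variable the conic has a section over a finite extension -/
def TsenStmt : Prop :=
  ∀ (K : Type) [Field K] [NumberField K] (a b : K[X]), a ≠ 0 → b ≠ 0 →
    ∃ (L : Type) (_ : Field L) (_ : NumberField L) (_ : Algebra K L) (Z : Finset K),
      ∀ s : K, s ∉ Z → CP L (algebraMap K L (a.eval s)) (algebraMap K L (b.eval s))

/-- the conic bundle `X ^ 2 = a Y ^ 2 + b Z ^ 2` over `R` has a dense set of points over `L` -/
def SolAt (K L : Type) [Field K] [Field L] [Algebra K L] (R : Type) [CommRing R] [Algebra K R]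
    (a b : R) : Prop :=
  ∀ f : R, f ≠ 0 → ∃ φ : R →ₐ[K] L, φ f ≠ 0 ∧ CP L (φ a) (φ b)

/-- the restriction of a polynomial over `K` to the line through `y` (a point over `L`) in the
direction `j` -/
noncomputable def lineL (K : Type) {L : Type} [Field K] [Field L] [Algebra K L] {σ : Type}
    [DecidableEq σ] (y : σ → L) (j : σ) : MvPolynomial σ K →ₐ[K] L[X] :=
  MvPolynomial.aeval (Function.update (fun i => C (y i)) j X)

end Pool.Agent.Helper65.CB
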