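import Pool.Agent.Helper4.CB.STM
import Pool.Agent.Helper16.CB.Val
import Pool.Agent.Helper3.CB.PwA
import Pool.Agent.Helper15.PotDense

/-!
# CB, tower form: definitions and statements

`HS K J x y`: up to squares `x`, `y` are nonzero algebraic integers all of whose primes are
harmless (`Harm J`).  `HD K R J a b`: the points `φ : R → K` with `HS K J (φ a) (φ b)` are dense.
-/

set_option autoImplicit false

namespace Pool.Agent.Helper65.CB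

open NumberField Polynomial Pool.Agent.Helper4.CB Pool.Agent.Helper16.CB

/-- up to squares, `x` and `y` are integers with harmless primes only -/
def HS (K : Type) [Field K] [NumberField K] (J : ℕ) (x y : K) : Prop :=
  ∃ (a b : 𝓞 K) (c d : K), a ≠ 0 ∧ b ≠ 0 ∧ c ≠ 0 ∧ d ≠ 0 ∧ (a : K) = c ^ 2 * x ∧
    (b : K) = d ^ 2 * y ∧
    ∀ p : Ideal (𝓞 K), p.IsPrime → p ≠ ⊥ → a * b ∈ p → Harm J a b p

/-- the points of `R` at which the pair `(a, b)` is harmless are dense -/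
def HD (K : Type) [Field K] [NumberField K] (R : Type) [CommRing R] [Algebra K R] (J : ℕ)
    (a b : R) : Prop :=
  ∀ f : R, f ≠ 0 → ∃ φ : R →ₐ[K] K, φ f ≠ 0 ∧ HS K J (φ a) (φ b)

/-- **SV2**: the sieve, `v` is sifted as well and `u`, `v` are congruent to `r` modulo `m`. -/
def SieveStmt2 (K : Type) [Field K] [NumberField K] (dm : ℕ) : Prop :=
  ∀ D : ℕ, ∃ J : ℕ, 1 ≤ J ∧ ∀ S : Finset (𝓞 K)[X], S.card ≤ D →
    (∀ P ∈ S, P.Monic ∧ 1 ≤ P.natDegree ∧ P.natDegree ≤ dm ∧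
      Irreducible (P.map (algebraMap (𝓞 K) K))) →
    ∀ m1 : ℕ, m1 ≠ 0 → ∀ Z : Finset K, ∃ (m r : ℕ) (u v : 𝓞 K),
      m ≠ 0 ∧ m1 ∣ m ∧ r.Coprime m ∧ (m : 𝓞 K) ∣ u - r ∧ (m : 𝓞 K) ∣ v - r ∧ v ≠ 0 ∧
      (u : K) / (m * v) ∉ Z ∧ (∀ P ∈ S, hv P u (m * v) ≠ 0) ∧
      ∀ p : Pl K, (m : 𝓞 K) ∉ p.asIdeal →
        (v ∈ p.asIdeal ∨ ∃ P ∈ S, hv P u (m * v) ∈ p.asIdeal) → ¬ nm p ≡ 1 [MOD 2 ^ J]

/-- **STEP**: one more variable. -/
def StepStmt (K : Type) [Field K] [NumberField K] (dm : ℕ) : Prop :=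
  ∀ D J0 : ℕ, ∃ J : ℕ, J0 ≤ J ∧ ∀ a b : K[X], a ≠ 0 → b ≠ 0 → (a * b).natDegree ≤ D →
    (∀ P : K[X], Irreducible P → P ∣ a * b → P.natDegree ≤ dm) →
    HS K J0 a.leadingCoeff b.leadingCoeff →
    ∀ Z : Finset K, ∃ s : K, s ∉ Z ∧ HS K J (a.eval s) (b.eval s)

end Pool.Agent.Helper65.CB
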