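import Pool.Agent.Helper65.CB.Path
import Pool.Agent.Helper17.CB.Elim
import Pool.Agent.Helper14.CB.StepC
import Pool.Agent.Helper33.CB.StepLC
import Pool.Agent.Helper3.CB.EndHDM

/-!
# CB, theorem T-E

`a`, `b` nonzero polynomials over the number field `K`; after a finite extension `M` of `K` every
irreducible factor of `a b` has degree at most `dm` in each variable, or `(a, b)` is unramified at it.
Then everything birational to the conic bundle `x ^ 2 - a y ^ 2 = b` is potentially dense.
-/

set_option autoImplicit false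

namespace Pool.Agent.Helper65.CB

open NumberField Polynomial Pool.Agent.Helper4.CB Pool.Agent.Helper16.CB
open AlgebraicGeometry CategoryTheory Pool.Agent.Helper15

theorem elim (K : Type) [Field K] : Elim K :=
  fun _ _ _ _ _ hP hPG j => Pool.Agent.Helper17.CB.exists_elim hP hPG j

theorem te (K M : Type) [Field K] [NumberField K] [Field M] [NumberField M] [Algebra K M]
    (dm : ℕ) (hdm : 1 ≤ dm) (hs : SieveX M dm) {σ : Type} [Fintype σ]
    (a b : MvPolynomial σ K) (ha : a ≠ 0) (hb : b ≠ 0)
    (hP : ∀ P : MvPolynomial σ M, Irreducible P →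
      P ∣ MvPolynomial.map (algebraMap K M) a * MvPolynomial.map (algebraMap K M) b →
      (∀ j, P.degreeOf j ≤ dm) ∨
        LCU P (MvPolynomial.map (algebraMap K M) a) (MvPolynomial.map (algebraMap K M) b))
    (X : Scheme.{0}) (s : X ⟶ Spec (CommRingCat.of K)) [IrreducibleSpace X]
    (hX : BirationalOver K X (Spec (CommRingCat.of (MvPolynomial (Fin 2) (MvPolynomial σ K) ⧸
      Ideal.span {(MvPolynomial.X 0 ^ 2 - MvPolynomial.C a * MvPolynomial.X 1 ^ 2 -
        MvPolynomial.C b : MvPolynomial (Fin 2) (MvPolynomial σ K))}))) s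
      (Spec.map (CommRingCat.ofHom (algebraMap K (MvPolynomial (Fin 2) (MvPolynomial σ K) ⧸
      Ideal.span {(MvPolynomial.X 0 ^ 2 - MvPolynomial.C a * MvPolynomial.X 1 ^ 2 -
        MvPolynomial.C b : MvPolynomial (Fin 2) (MvPolynomial σ K))}))))) :
    PotentiallyDense K X s := by
  classical
  obtain ⟨J, hJ⟩ := path_ext K M (elim M) dm
    (Pool.Agent.Helper14.CB.stepC hdm (Pool.Agent.Helper33.CB.stepLC M dm hs)) ha hb hP
  exact Pool.Agent.Helper3.CB.end_hdm K M (MvPolynomial σ K) a b ha hb J hJ X s hX

end Pool.Agent.Helper65.CB
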