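import Pool.Agent.Helper65.CB.TE
import Pool.Agent.Helper35.CB.SieveTwo

/-!
# CB, theorem T-E for factors of degree at most two in each variable
-/

set_option autoImplicit false

namespace Pool.Agent.Helper65.CB

open NumberField Polynomial Pool.Agent.Helper4.CB Pool.Agent.Helper16.CB
open AlgebraicGeometry CategoryTheory Pool.Agent.Helper15

theorem te_two (K M : Type) [Field K] [NumberField K] [Field M] [NumberField M] [Algebra K M]
    {σ : Type} [Fintype σ] (a b : MvPolynomial σ K) (ha : a ≠ 0) (hb : b ≠ 0)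
    (hP : ∀ P : MvPolynomial σ M, Irreducible P →
      P ∣ MvPolynomial.map (algebraMap K M) a * MvPolynomial.map (algebraMap K M) b →
      (∀ j, P.degreeOf j ≤ 2) ∨
        LCU P (MvPolynomial.map (algebraMap K M) a) (MvPolynomial.map (algebraMap K M) b))
    (X : Scheme.{0}) (s : X ⟶ Spec (CommRingCat.of K)) [IrreducibleSpace X]
    (hX : BirationalOver K X (Spec (CommRingCat.of (MvPolynomial (Fin 2) (MvPolynomial σ K) ⧸
      Ideal.span {(MvPolynomial.X 0 ^ 2 - MvPolynomial.C a * MvPolynomial.X 1 ^ 2 -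
        MvPolynomial.C b : MvPolynomial (Fin 2) (MvPolynomial σ K))}))) s
      (Spec.map (CommRingCat.ofHom (algebraMap K (MvPolynomial (Fin 2) (MvPolynomial σ K) ⧸
      Ideal.span {(MvPolynomial.X 0 ^ 2 - MvPolynomial.C a * MvPolynomial.X 1 ^ 2 -
        MvPolynomial.C b : MvPolynomial (Fin 2) (MvPolynomial σ K))}))))) :
    PotentiallyDense K X s :=
  te K M 2 (by norm_num) (Pool.Agent.Helper35.CB.sieveX_two M) a b ha hb hP X s hX

end Pool.Agent.Helper65.CB
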