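import Pool.Agent.Helper65.CB.TEDefs

/-!
# CB, theorem T-E: frames
-/

set_option autoImplicit false

namespace Pool.Agent.Helper65.CB

open NumberField Polynomial Pool.Agent.Helper4.CB Pool.Agent.Helper16.CB
open AlgebraicGeometry CategoryTheory Pool.Agent.Helper15 Pool.Agent.Helper3.CB

/-- **LCUMAP.** functoriality -/
theorem lcu_map {A B : Type*} [CommRing A] [CommRing B] [IsDomain B] [WfDvdMonoid B]
    (ψ : A →+* B) {Q : B} (hQ : Prime Q) {P a1 b1 g h : A} {e f : ℕ} (hP : ψ P ≠ 0)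
    (hQP : Q ∣ ψ P) (hG : ¬ Q ∣ ψ (a1 * b1 * g))
    (ht : P ∣ g ^ 2 * ((-1) ^ (e * f) * (a1 ^ f * b1 ^ e)) - h ^ 2) :
    LCU Q (ψ (P ^ e * a1)) (ψ (P ^ f * b1)) := by
  sorry

/-- **LCULC.** -/
theorem lc_of_lcu {K : Type} [Field K] {Q a b : K[X]} (hQ : Irreducible Q) (h : LCU Q a b) :
    LC (Ideal.span {Q}) a b := by
  sorry

/-- **ELIM.** -/
theorem exists_elim {K : Type} [Field K] {σ : Type} [Fintype σ] [DecidableEq σ]
    {P G : MvPolynomial σ K} (hP : Irreducible P) (hPG : ¬ P ∣ G) (j : σ) :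
    ∃ u v R : MvPolynomial σ K, R ≠ 0 ∧ R.degreeOf j = 0 ∧ u * P + v * G = R := by
  sorry

theorem eval_line {K : Type} [Field K] {σ : Type} [DecidableEq σ] (y : σ → K) (j : σ)
    (a : MvPolynomial σ K) (s : K) :
    (line y j a).eval s = MvPolynomial.eval (Function.update y j s) a := by
  sorry

theorem natDegree_line_le {K : Type} [Field K] {σ : Type} [DecidableEq σ] (y : σ → K) (j : σ)
    (a : MvPolynomial σ K) : (line y j a).natDegree ≤ a.degreeOf j := by
  sorry

theorem line_of_degreeOf {K : Type} [Field K] {σ : Type} [DecidableEq σ] (y : σ → K) (j : σ)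
    {a : MvPolynomial σ K} (h : a.degreeOf j = 0) : line y j a = C (MvPolynomial.eval y a) := by
  sorry

/-- **PATH1.** one coordinate of the path -/
theorem path_step (K : Type) [Field K] [NumberField K] (dm : ℕ) (hs : StepC K dm) {σ : Type} [Fintype σ] [DecidableEq σ] {a b : MvPolynomial σ K}
    (ha : a ≠ 0) (hb : b ≠ 0)
    (hP : ∀ P : MvPolynomial σ K, Irreducible P → P ∣ a * b →
      (∀ j, P.degreeOf j ≤ dm) ∨ LCU P a b) :
    ∃ R : MvPolynomial σ K, R ≠ 0 ∧ ∀ J0 : ℕ, ∃ J : ℕ, J0 ≤ J ∧ ∀ (j : σ) (y : σ → K),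
      MvPolynomial.eval y R ≠ 0 → HS K J0 (MvPolynomial.eval y a) (MvPolynomial.eval y b) →
      ∀ Z : Finset K, ∃ s : K, s ∉ Z ∧ HS K J (MvPolynomial.eval (Function.update y j s) a)
        (MvPolynomial.eval (Function.update y j s) b) := by
  sorry

/-- **PATH.** -/
theorem path (K : Type) [Field K] [NumberField K] (dm : ℕ) (hs : StepC K dm) {σ : Type}
    [Fintype σ] [DecidableEq σ] {a b : MvPolynomial σ K} (ha : a ≠ 0) (hb : b ≠ 0)
    (hP : ∀ P : MvPolynomial σ K, Irreducible P → P ∣ a * b →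
      (∀ j, P.degreeOf j ≤ dm) ∨ LCU P a b) :
    ∃ J, HD K (MvPolynomial σ K) J a b := by
  sorry

/-- **PATHM.** the same after a finite extension `M` of `K` -/
theorem path_ext (K M : Type) [Field K] [NumberField K] [Field M] [NumberField M] [Algebra K M]
    (dm : ℕ) (hs : StepC M dm) {σ : Type}
    [Fintype σ] [DecidableEq σ] {a b : MvPolynomial σ K} (ha : a ≠ 0) (hb : b ≠ 0)
    (hP : ∀ P : MvPolynomial σ M, Irreducible P →
      P ∣ MvPolynomial.map (algebraMap K M) a * MvPolynomial.map (algebraMap K M) b →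
      (∀ j, P.degreeOf j ≤ dm) ∨
        LCU P (MvPolynomial.map (algebraMap K M) a) (MvPolynomial.map (algebraMap K M) b)) :
    ∃ J, HDM K M (MvPolynomial σ K) J a b := by
  sorry

/-- **ENDHDM.** -/
theorem end_hdm (K M : Type) [Field K] [NumberField K] [Field M] [NumberField M] [Algebra K M]
    (A : Type) [CommRing A] [IsDomain A] [Algebra K A] (a b : A) (ha : a ≠ 0) (hb : b ≠ 0) (J : ℕ)
    (hd : HDM K M A J a b)
    (X : Scheme.{0}) (s : X ⟶ Spec (CommRingCat.of K)) [IrreducibleSpace X]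
    (hX : BirationalOver K X (Spec (CommRingCat.of (MvPolynomial (Fin 2) A ⧸ Ideal.span
      {(MvPolynomial.X 0 ^ 2 - MvPolynomial.C a * MvPolynomial.X 1 ^ 2 - MvPolynomial.C b :
        MvPolynomial (Fin 2) A)}))) s
      (Spec.map (CommRingCat.ofHom (algebraMap K (MvPolynomial (Fin 2) A ⧸ Ideal.span
      {(MvPolynomial.X 0 ^ 2 - MvPolynomial.C a * MvPolynomial.X 1 ^ 2 - MvPolynomial.C b :
        MvPolynomial (Fin 2) A)}))))) :
    PotentiallyDense K X s := by
  sorry

end Pool.Agent.Helper65.CB
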